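import Pool.Agent.W_10444e_h88.Psi

/-!
# The one-step lemma for the selection principle (MP_10444e_gt)
-/

set_option autoImplicit false

namespace GTF

open MeasureTheory Set Filter

/-- The initial segment of `f` of length `k`. -/
def seg (f : ℕ → ℕ) (k : ℕ) : List ℕ := (List.range k).map f

theorem length_seg (f : ℕ → ℕ) (k : ℕ) : (seg f k).length = k := by simp [seg]

/-- `f` extends `t`. -/
def Ext (f : ℕ → ℕ) (t : List ℕ) : Prop := seg f t.length = t

theorem ext_seg (f : ℕ → ℕ) (k : ℕ) : Ext f (seg f k) := by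
  unfold Ext
  rw [length_seg]

theorem seg_eq_iff {f g : ℕ → ℕ} {k : ℕ} : seg f k = seg g k ↔ ∀ i < k, f i = g i := by
  unfold seg
  rw [List.map_inj_left]
  simp

theorem isOpen_ext (t : List ℕ) : IsOpen {x : Kp | Ext (Psi x) t} := by
  rw [isOpen_iff_forall_mem_open]
  intro x hx
  refine ⟨⋂ i ∈ Finset.range t.length, {y : Kp | Psi y i = Psi x i}, ?_, ?_, ?_⟩
  · intro y hy
    have h1 : seg (Psi y) t.length = seg (Psi x) t.length := by
      rw [seg_eq_iff]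
      intro i hi
      exact mem_iInter₂.1 hy i (Finset.mem_range.2 hi)
    have hx' : seg (Psi x) t.length = t := hx
    exact h1.trans hx'
  · refine isOpen_biInter_finset fun i _ => ?_
    have h1 : IsOpen ((fun y : Kp => Psi y i) ⁻¹' ({Psi x i} : Set ℕ)) :=
      (isOpen_discrete _).preimage ((continuous_apply i).comp continuous_Psi)
    exact h1
  · simp

theorem countable_exhaust {α : Type*} {S : Set α} (hS : S.Countable) :
    ∃ t : ℕ → Finset α, (∀ n, (↑(t n) : Set α) ⊆ S) ∧ ∀ x ∈ S, ∀ᶠ n in atTop, x ∈ t n := by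
  classical
  rcases S.eq_empty_or_nonempty with rfl | hne
  · exact ⟨fun _ => ∅, by simp, by simp⟩
  · obtain ⟨f, rfl⟩ := hS.exists_eq_range hne
    refine ⟨fun n => (Finset.range n).image f, ?_, ?_⟩
    · intro n x hx
      obtain ⟨i, _, rfl⟩ := Finset.mem_image.1 (Finset.mem_coe.1 hx)
      exact ⟨i, rfl⟩
    · rintro _ ⟨i, rfl⟩
      filter_upwards [eventually_gt_atTop i] with n hn
      exact Finset.mem_image_of_mem _ (Finset.mem_range.2 hn)

instance : IsFiniteMeasure mu := CompactSpace.isFiniteMeasure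

theorem exists_compact {W : Set Kp} (hW : IsOpen W) (n : ℕ) :
    ∃ K ⊆ W, IsCompact K ∧ mu (W \ K) < (1 / 2 : ENNReal) ^ n := by
  refine MeasurableSet.exists_isCompact_sdiff_lt hW.measurableSet (measure_ne_top mu W) ?_
  exact pow_ne_zero n (by norm_num)

/-- The one-step lemma. -/
theorem C2.native_sel (q : C2) (S : Set (ℕ × List ℕ))
    (hS : ∀ r ≤ q, ∀ x ∈ r.s, ∀ n, ∃ t, (n, t) ∈ S ∧ Ext (Psi x) t) :
    ∃ r ≤ q, ∃ B : ℕ → Finset (List ℕ), (∀ n, ∀ t ∈ B n, (n, t) ∈ S) ∧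
      ∀ r' ≤ r, ∀ T : Finset Kp, (T : Set Kp) ⊆ r'.s →
        ∃ n, ∀ x ∈ T, ∃ t ∈ B n, Ext (Psi x) t := by
  classical
  let W : ℕ → Set Kp := fun n => ⋃ t : {t : List ℕ // (n, t) ∈ S}, {x | Ext (Psi x) t.1}
  have hWmem : ∀ n x, x ∈ W n ↔ ∃ t, (n, t) ∈ S ∧ Ext (Psi x) t := by
    intro n x
    simp only [W, mem_iUnion, mem_ofPred_eq, Subtype.exists, exists_prop]
  have hWo : ∀ n, IsOpen (W n) := fun n => isOpen_iUnion fun t => isOpen_ext t.1
  have hWae : ∀ᵐ x ∂mu, ∀ n, x ∈ W n := by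
    refine q.ae_add.mono fun x hx n => ?_
    obtain ⟨r, hr, hxr, _⟩ := q.add_pair hx hx (Or.inl rfl)
    exact (hWmem n x).2 (hS r hr x hxr n)
  have hK : ∀ n, ∃ K ⊆ W n, IsCompact K ∧ mu (W n \ K) < (1 / 2 : ENNReal) ^ n := fun n =>
    exists_compact (hWo n) n
  choose K hKW hKc hKm using hK
  have hsum : (∑' n, mu (W n \ K n)) ≠ ⊤ := by
    refine ne_top_of_le_ne_top ?_ (ENNReal.tsum_le_tsum fun n => (hKm n).le)
    rw [ENNReal.tsum_geometric]
    norm_num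
  have hBC : ∀ᵐ x ∂mu, ∀ᶠ n in atTop, x ∉ W n \ K n := ae_eventually_notMem hsum
  have hev : ∀ᵐ x ∂mu, x ∉ {x : Kp | ¬ ∀ᶠ n in atTop, x ∈ K n} := by
    filter_upwards [hWae, hBC] with x h1 h2 h3
    refine h3 (h2.mono fun n hn => ?_)
    by_contra hc
    exact hn ⟨h1 n, hc⟩
  have hN0 : mu {x : Kp | ¬ ∀ᶠ n in atTop, x ∈ K n} = 0 := measure_eq_zero_iff_ae_notMem.2 hev
  let r : C2 := ⟨q.s, q.N ∪ {x : Kp | ¬ ∀ᶠ n in atTop, x ∈ K n}, q.s_ctb,
    measure_union_null q.N_null hN0, q.inf⟩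
  have hr : r ≤ q := ⟨subset_rfl, subset_union_left, fun _ h h' => absurd h h'⟩
  obtain ⟨t, ht1, ht2⟩ := countable_exhaust q.s_ctb
  have hB : ∀ n, ∃ B : Finset (List ℕ), (∀ u ∈ B, (n, u) ∈ S) ∧
      ∀ x ∈ K n ∪ ↑(t n), ∃ u ∈ B, Ext (Psi x) u := by
    intro n
    have hc : IsCompact (K n ∪ ↑(t n)) := (hKc n).union (t n).finite_toSet.isCompact
    have hsub : K n ∪ ↑(t n) ⊆ W n := by
      refine union_subset (hKW n) fun x hx => ?_
      exact (hWmem n x).2 (hS q le_rfl x (ht1 n hx) n)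
    obtain ⟨b, hb⟩ := hc.elim_finite_subcover
      (fun t : {t : List ℕ // (n, t) ∈ S} => {x | Ext (Psi x) t.1}) (fun t => isOpen_ext t.1) hsub
    refine ⟨b.image Subtype.val, ?_, ?_⟩
    · intro u hu
      obtain ⟨v, _, rfl⟩ := Finset.mem_image.1 hu
      exact v.2
    · intro x hx
      obtain ⟨v, hv, hxv⟩ := mem_iUnion₂.1 (hb hx)
      exact ⟨v.1, Finset.mem_image_of_mem _ hv, hxv⟩
  choose B hBS hBK using hB
  refine ⟨r, hr, B, hBS, fun r' hr' T hT => ?_⟩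
  have hall : ∀ᶠ n in atTop, ∀ x ∈ T, x ∈ K n ∪ ↑(t n) := by
    rw [Filter.eventually_all_finset]
    intro x hx
    by_cases hxq : x ∈ q.s
    · filter_upwards [ht2 x hxq] with n hn
      exact Or.inr hn
    · have h1 : x ∉ r.N := hr'.2.2 x (hT hx) hxq
      have h2 : ∀ᶠ n in atTop, x ∈ K n := by
        by_contra hc
        exact h1 (Or.inr hc)
      filter_upwards [h2] with n hn
      exact Or.inl hn
  obtain ⟨n, hn⟩ := hall.exists
  exact ⟨n, fun x hx => hBK n x (hn x hx)⟩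

end GTF
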