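import Pool.Agent.W_8dd142_h88.Defs

/-!
# Selection principles in a structure (MP_10444e_gt)

`E` is the membership relation of the structure `X`; all quantifiers range over `X`. The notions
`Sub`, `IsOmega`, `App`, `IsMap`, `IsFin` are those of `Pool.Agent.W_8dd142_h88.Defs`. For a model
of ZFC these are the usual notions of the model.
-/

universe v

namespace GTF

open TKF

section notions

variable {X : Type v} (E : X → X → Prop)

/-- `R` is the set of all maps from `w = ω` to `w` (Baire space). -/
def IsBaire (w R : X) : Prop := ∀ f, E f R ↔ IsMap E f w w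

/-- The maps `f` and `g` agree on the natural number `n = {0, …, n - 1}`. -/
def Agree (f g n : X) : Prop := ∀ k y, E k n → App E f k y → App E g k y

/-- `O` is an open subset of Baire space `R`. -/
def IsOpenB (w R O : X) : Prop := Sub E O R ∧
  ∀ f, E f O → ∃ n, E n w ∧ ∀ g, E g R → Agree E f g n → E g O

/-- `Z ⊆ ⋃ F` -/
def Cov (Z F : X) : Prop := ∀ z, E z Z → ∃ O, E O F ∧ E z O

/-- `C` is a family of open sets which covers `Z`. -/
def OpenCover (w R Z C : X) : Prop := (∀ O, E O C → IsOpenB E w R O) ∧ Cov E Z C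

/-- `s` is a sequence, i.e. a function with domain `w = ω`. -/
def IsSeq (w s : X) : Prop := ∃ d, IsMap E s w d

/-- `t` is a sequence with `t(n)` a finite subset of `s(n)` for all `n`. -/
def FinSel (w s t : X) : Prop := IsSeq E w t ∧
  ∀ n C F, App E s n C → App E t n F → IsFin E F ∧ Sub E F C

/-- `Z ⊆ R` is Menger, `S_fin(O, O)`. -/
def Menger (w R Z : X) : Prop := ∀ s, IsSeq E w s →
  (∀ n C, App E s n C → OpenCover E w R Z C) →
    ∃ t, FinSel E w s t ∧ ∀ z, E z Z → ∃ n F O, App E t n F ∧ E O F ∧ E z O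

/-- `Z ⊆ R` has the property `U_fin(O, Ω)`: for every sequence `s` of open covers of `Z` without
finite subcovers there are finite `t(n) ⊆ s(n)` such that the sets `⋃ t(n)` form an `ω`-cover of
`Z`, i.e. no `⋃ t(n)` contains `Z` and every finite subset of `Z` is contained in some `⋃ t(n)`. -/
def UfinOmega (w R Z : X) : Prop := ∀ s, IsSeq E w s →
  (∀ n C, App E s n C → OpenCover E w R Z C ∧ ∀ F, IsFin E F → Sub E F C → ¬ Cov E Z F) →
    ∃ t, FinSel E w s t ∧ (∀ n F, App E t n F → ¬ Cov E Z F) ∧
      ∀ A, IsFin E A → Sub E A Z → ∃ n F, App E t n F ∧ Cov E A F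

/-- `G` is the set of all `g` in `R` for which there is a finite `F ⊆ Y` such that for all but
finitely many `n` there is `f` in `F` with `g(n) ≤ f(n)`. -/
def IsG (w R Y G : X) : Prop := ∀ g, E g G ↔ E g R ∧ ∃ F m, IsFin E F ∧ Sub E F Y ∧ E m w ∧
  ∀ n, E n w → (E m n ∨ m = n) → ∃ f a b, E f F ∧ App E g n a ∧ App E f n b ∧ (E a b ∨ a = b)

end notions

end GTF
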