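import Pool.Agent.W_8dd142_h88.Notions
import Pool.Agent.W_10444e_h88.Defs

/-!
# The notions are first-order (MP_10444e_gt)
-/

universe u

namespace GTF

open IM TKF

theorem Agree.fo (i j k : ℕ) : FO.{u} (fun _ E v => Agree E (v i) (v j) (v k)) := by
  unfold Agree
  repeat' (with_reducible first | apply App.fo | apply FO.mem | apply FO.eq | apply FO.and | apply FO.or | apply FO.iff | apply FO.not | apply FO.imp | apply FO.all | apply FO.ex)

theorem IsBaire.fo (i j : ℕ) : FO.{u} (fun _ E v => IsBaire E (v i) (v j)) := by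
  unfold IsBaire
  repeat' (with_reducible first | apply IsMap.fo | apply App.fo | apply FO.mem | apply FO.eq | apply FO.and | apply FO.or | apply FO.iff | apply FO.not | apply FO.imp | apply FO.all | apply FO.ex)

theorem IsOpenB.fo (i j k : ℕ) : FO.{u} (fun _ E v => IsOpenB E (v i) (v j) (v k)) := by
  unfold IsOpenB
  repeat' (with_reducible first | apply Agree.fo | apply Sub.fo | apply FO.mem | apply FO.eq | apply FO.and | apply FO.or | apply FO.iff | apply FO.not | apply FO.imp | apply FO.all | apply FO.ex)

theorem Cov.fo (i j : ℕ) : FO.{u} (fun _ E v => Cov E (v i) (v j)) := by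
  unfold Cov
  repeat' (with_reducible first | apply Sub.fo | apply FO.mem | apply FO.eq | apply FO.and | apply FO.or | apply FO.iff | apply FO.not | apply FO.imp | apply FO.all | apply FO.ex)

theorem OpenCover.fo (i j k l : ℕ) :
    FO.{u} (fun _ E v => OpenCover E (v i) (v j) (v k) (v l)) := by
  unfold OpenCover
  repeat' (with_reducible first | apply IsOpenB.fo | apply Cov.fo | apply Sub.fo | apply FO.mem | apply FO.eq | apply FO.and | apply FO.or | apply FO.iff | apply FO.not | apply FO.imp | apply FO.all | apply FO.ex)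

theorem IsSeq.fo (i j : ℕ) : FO.{u} (fun _ E v => IsSeq E (v i) (v j)) := by
  unfold IsSeq
  repeat' (with_reducible first | apply IsMap.fo | apply FO.mem | apply FO.eq | apply FO.and | apply FO.or | apply FO.iff | apply FO.not | apply FO.imp | apply FO.all | apply FO.ex)

theorem FinSel.fo (i j k : ℕ) : FO.{u} (fun _ E v => FinSel E (v i) (v j) (v k)) := by
  unfold FinSel
  repeat' (with_reducible first | apply IsSeq.fo | apply IsFin.fo | apply App.fo | apply Sub.fo | apply FO.mem | apply FO.eq | apply FO.and | apply FO.or | apply FO.iff | apply FO.not | apply FO.imp | apply FO.all | apply FO.ex)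

/-- The sequences to which `U_fin(O, Ω)` applies. -/
def CoverSeq {X : Type*} (E : X → X → Prop) (w R Z s : X) : Prop := IsSeq E w s ∧
  ∀ n C, App E s n C → OpenCover E w R Z C ∧ ∀ F, IsFin E F → Sub E F C → ¬ Cov E Z F

theorem CoverSeq.fo (i j k l : ℕ) :
    FO.{u} (fun _ E v => CoverSeq E (v i) (v j) (v k) (v l)) := by
  unfold CoverSeq
  repeat' (with_reducible first | apply OpenCover.fo | apply Cov.fo | apply IsSeq.fo | apply IsFin.fo | apply App.fo | apply Sub.fo | apply FO.mem | apply FO.eq | apply FO.and | apply FO.or | apply FO.iff | apply FO.not | apply FO.imp | apply FO.all | apply FO.ex)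

/-- The selections required by `U_fin(O, Ω)`. -/
def OmegaSel {X : Type*} (E : X → X → Prop) (w Z s t : X) : Prop := FinSel E w s t ∧
  (∀ n F, App E t n F → ¬ Cov E Z F) ∧
      ∀ A, IsFin E A → Sub E A Z → ∃ n F, App E t n F ∧ Cov E A F

theorem OmegaSel.fo (i j k l : ℕ) :
    FO.{u} (fun _ E v => OmegaSel E (v i) (v j) (v k) (v l)) := by
  unfold OmegaSel
  repeat' (with_reducible first | apply FinSel.fo | apply OpenCover.fo | apply Cov.fo | apply IsSeq.fo | apply IsFin.fo | apply App.fo | apply Sub.fo | apply FO.mem | apply FO.eq | apply FO.and | apply FO.or | apply FO.iff | apply FO.not | apply FO.imp | apply FO.all | apply FO.ex)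

/-- `g` is eventually dominated by the pointwise maximum of a finite subset of `Y`. -/
def DomB {X : Type*} (E : X → X → Prop) (w Y g : X) : Prop := ∃ F m, IsFin E F ∧ Sub E F Y ∧
  E m w ∧ ∀ n, E n w → (E m n ∨ m = n) →
    ∃ f a b, E f F ∧ App E g n a ∧ App E f n b ∧ (E a b ∨ a = b)

theorem DomB.fo (i j k : ℕ) : FO.{u} (fun _ E v => DomB E (v i) (v j) (v k)) := by
  unfold DomB
  repeat' (with_reducible first | apply IsFin.fo | apply App.fo | apply Sub.fo | apply FO.mem | apply FO.eq | apply FO.and | apply FO.or | apply FO.iff | apply FO.not | apply FO.imp | apply FO.all | apply FO.ex)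

/-- `g` is eventually dominated by the pointwise maximum of `F`, beginning with `m`. -/
def DomF {X : Type*} (E : X → X → Prop) (w F m g : X) : Prop := ∀ n, E n w → (E m n ∨ m = n) →
    ∃ f a b, E f F ∧ App E g n a ∧ App E f n b ∧ (E a b ∨ a = b)

theorem DomF.fo (i j k l : ℕ) : FO.{u} (fun _ E v => DomF E (v i) (v j) (v k) (v l)) := by
  unfold DomF
  repeat' (with_reducible first | apply IsFin.fo | apply App.fo | apply Sub.fo | apply FO.mem | apply FO.eq | apply FO.and | apply FO.or | apply FO.iff | apply FO.not | apply FO.imp | apply FO.all | apply FO.ex)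

end GTF
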