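import Pool.Agent.W_8dd142_h88.Gen
import Pool.Agent.W_10444e_h88.Notions
import Pool.Agent.W_10444e_h88.Native

/-!
# Baire space of the model (MP_10444e_gt)
-/

universe u

namespace GTF

open IM IM.BSet BVM TKF

section names

variable {D : Type u} [CompleteBooleanAlgebra D] {lam : D → Prop} {hl : IsUF lam}

/-- The pairs of natural numbers. -/
def cp (i : ℕ × ℕ) : BSet D := prB (natB i.1) (natB i.2)

theorem disj_cp : Disj (cp : ℕ × ℕ → BSet D) := disj_prB disj_natB disj_natB

/-- The name of the function `f`. -/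
noncomputable def fn (f : ℕ → ℕ) : BSet D := nchk cp {i | i.2 = f i.1}

theorem disj_fn : Disj (fn : (ℕ → ℕ) → BSet D) := by
  intro f g hfg
  refine disj_nchk disj_cp _ _ ?_
  intro h
  apply hfg
  funext n
  have h1 : ((n, f n) : ℕ × ℕ) ∈ {i : ℕ × ℕ | i.2 = f i.1} := rfl
  rw [h] at h1
  exact h1

theorem app_fn {f : ℕ → ℕ} {n m : ℕ} :
    App (E hl) (val hl (fn f)) (val hl (natB n)) (val hl (natB m)) ↔ m = f n := by
  rw [app_val]
  exact E_nchk_c (i := (n, m)) disj_cp

/-- Elements of `ω`. -/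
theorem nat_all {Q : ∀ X : Type (u + 1), (X → X → Prop) → (ℕ → X) → Prop} (hQ : FO Q)
    {v : ℕ → BSet D} (a : D)
    (h : ∀ (n : ℕ) (lam : D → Prop) (hl : IsUF lam), lam a →
      Q (X hl) (E hl) (fun n' => val hl (cons (natB n) v n')))
    {lam : D → Prop} (hl : IsUF lam) (ha : lam a) {x : X hl}
    (hx : E hl x (val hl (omB D))) : Q (X hl) (E hl) (cons x fun n => val hl (v n)) := by
  obtain ⟨x, rfl⟩ := exists_name x
  rw [← comp_cons (val hl)]
  rw [omB, E_nall] at hx
  exact mix hQ a h hl ha hx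

/-- Elements of a standard family. -/
theorem fam_all {ι : Type} {c : ι → BSet D}
    {Q : ∀ X : Type (u + 1), (X → X → Prop) → (ℕ → X) → Prop} (hQ : FO Q)
    {v : ℕ → BSet D} (a : D)
    (h : ∀ (i : ι) (lam : D → Prop) (hl : IsUF lam), lam a →
      Q (X hl) (E hl) (fun n' => val hl (cons (c i) v n')))
    {lam : D → Prop} (hl : IsUF lam) (ha : lam a) {x : X hl}
    (hx : E hl x (val hl (nall c))) : Q (X hl) (E hl) (cons x fun n => val hl (v n)) := by
  obtain ⟨x, rfl⟩ := exists_name x
  rw [← comp_cons (val hl)]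
  rw [E_nall] at hx
  exact mix hQ a h hl ha hx

theorem isMap_fn (f : ℕ → ℕ) :
    IsMap (E hl) (val hl (fn f)) (val hl (omB D)) (val hl (omB D)) := by
  constructor
  · intro p hp
    have h1 := nchk_sub_nall p hp
    refine fam_all (c := cp) (Q := fun _ E v => ∃ x y, IsPair E (v 0) x y ∧ E x (v 1) ∧ E y (v 1))
      (v := ps [omB D])
      (by repeat' (with_reducible first | apply IsPair.fo | apply FO.mem | apply FO.and | apply FO.ex))
      ⊤ ?_ hl hl.top h1
    intro i lam hl _
    exact ⟨val hl (natB i.1), val hl (natB i.2), isPair_val.2 rfl, E_nall_c i.1, E_nall_c i.2⟩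
  · intro x hx
    refine nat_all (Q := fun _ E v => ∃ y, App E (v 1) (v 0) y ∧ ∀ y', App E (v 1) (v 0) y' → y' = y)
      (v := ps [fn f])
      (by repeat' (with_reducible first | apply App.fo | apply FO.mem | apply FO.eq | apply FO.imp | apply FO.and | apply FO.all | apply FO.ex))
      ⊤ ?_ hl hl.top hx
    intro n lam hl _
    refine ⟨val hl (natB (f n)), app_fn.2 rfl, ?_⟩
    intro y' hy'
    have hy1 : App (E hl) (val hl (fn f)) (val hl (natB n)) y' := hy'
    have hyw : E hl y' (val hl (omB D)) := by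
      obtain ⟨p, hp, hpf⟩ := hy1
      have h1 := nchk_sub_nall p hpf
      obtain ⟨y', rfl⟩ := exists_name y'
      refine fam_all (c := cp) (Q := fun _ E v => IsPair E (v 0) (v 1) (v 2) → E (v 2) (v 3))
        (v := ps [natB n, y', omB D])
        (by repeat' (with_reducible first | apply IsPair.fo | apply FO.mem | apply FO.imp))
        ⊤ ?_ hl hl.top h1 hp
      intro i lam hl _ hp
      have h2 : val hl (cp i) = val hl (prB (natB n) y') := isPair_val.1 hp
      have h3 := (prB_inj h2).2
      change E hl (val hl y') (val hl (omB D))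
      rw [← h3]
      exact E_nall_c i.2
    refine nat_all (Q := fun _ E v => App E (v 1) (v 2) (v 0) → v 0 = v 3)
      (v := ps [fn f, natB n, natB (f n)])
      (by repeat' (with_reducible first | apply App.fo | apply FO.eq | apply FO.imp))
      ⊤ ?_ hl hl.top hyw hy1
    intro m lam hl _ hm
    have h3 : m = f n := app_fn.1 hm
    rw [h3]
    rfl

/-- Two maps on `ω` which agree on all standard natural numbers are equal. -/
theorem map_ext {f g : BSet D} {d e : BSet D} {a : D}
    (hf : ∀ (lam : D → Prop) (hl : IsUF lam), lam a →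
      IsMap (E hl) (val hl f) (val hl (omB D)) (val hl d))
    (hg : ∀ (lam : D → Prop) (hl : IsUF lam), lam a →
      IsMap (E hl) (val hl g) (val hl (omB D)) (val hl e))
    (h : ∀ (n : ℕ) (lam : D → Prop) (hl : IsUF lam), lam a → ∃ y,
      App (E hl) (val hl f) (val hl (natB n)) y ∧ App (E hl) (val hl g) (val hl (natB n)) y)
    {lam : D → Prop} (hl : IsUF lam) (ha : lam a) : val hl f = val hl g := by
  have key : ∀ x, E hl x (val hl (omB D)) → ∃ y, App (E hl) (val hl f) x y ∧
      App (E hl) (val hl g) x y := by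
    intro x hx
    refine nat_all (Q := fun _ E v => ∃ y, App E (v 1) (v 0) y ∧ App E (v 2) (v 0) y)
      (v := ps [f, g])
      (by repeat' (with_reducible first | apply App.fo | apply FO.and | apply FO.ex))
      a ?_ hl ha hx
    exact fun n lam hl ha => h n lam hl ha
  have hf := hf lam hl ha
  have hg := hg lam hl ha
  refine ext_E fun p => ⟨fun hp => ?_, fun hp => ?_⟩
  · obtain ⟨x, y, hpxy, hx, _⟩ := hf.1 p hp
    obtain ⟨z, hz1, hz2⟩ := key x hx
    have h1 := hf.uniq ⟨p, hpxy, hp⟩ hz1
    obtain ⟨p', hp', hpg⟩ := hz2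
    rw [← h1] at hp'
    rw [isPair_uniq hpxy hp']
    exact hpg
  · obtain ⟨x, y, hpxy, hx, _⟩ := hg.1 p hp
    obtain ⟨z, hz1, hz2⟩ := key x hx
    have h1 := hg.uniq ⟨p, hpxy, hp⟩ hz2
    obtain ⟨p', hp', hpg⟩ := hz1
    rw [← h1] at hp'
    rw [isPair_uniq hpxy hp']
    exact hpg

/-- The name of the sequence of the `F n`. -/
def seqB (F : ℕ → BSet D) : BSet D := nall fun n => prB (natB n) (F n)

theorem isMap_seqB (F : ℕ → BSet D) :
    IsMap (E hl) (val hl (seqB F)) (val hl (omB D)) (val hl (nall F)) := by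
  constructor
  · intro p hp
    refine fam_all (c := fun n => prB (natB n) (F n))
      (Q := fun _ E v => ∃ x y, IsPair E (v 0) x y ∧ E x (v 1) ∧ E y (v 2))
      (v := ps [omB D, nall F])
      (by repeat' (with_reducible first | apply IsPair.fo | apply FO.mem | apply FO.and | apply FO.ex))
      ⊤ ?_ hl hl.top hp
    intro n lam hl _
    exact ⟨val hl (natB n), val hl (F n), isPair_val.2 rfl, E_nall_c n, E_nall_c n⟩
  · intro x hx
    refine nat_all (Q := fun _ E v => ∃ y, App E (v 1) (v 0) y ∧ ∀ y', App E (v 1) (v 0) y' → y' = y)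
      (v := ps [seqB F])
      (by repeat' (with_reducible first | apply App.fo | apply FO.mem | apply FO.eq | apply FO.imp | apply FO.and | apply FO.all | apply FO.ex))
      ⊤ ?_ hl hl.top hx
    intro n lam hl _
    refine ⟨val hl (F n), ⟨val hl (prB (natB n) (F n)), isPair_val.2 rfl, E_nall_c (c := fun n => prB (natB n) (F n)) n⟩, ?_⟩
    rintro y' ⟨p, hp, hpf⟩
    obtain ⟨y', rfl⟩ := exists_name y'
    refine fam_all (c := fun n => prB (natB n) (F n))
      (Q := fun _ E v => IsPair E (v 0) (v 1) (v 2) → v 2 = v 3)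
      (v := ps [natB n, y', F n])
      (by repeat' (with_reducible first | apply IsPair.fo | apply FO.eq | apply FO.imp))
      ⊤ ?_ hl hl.top hpf hp
    intro m lam hl _ hp
    have h2 : val hl (prB (natB m) (F m)) = val hl (prB (natB n) y') := isPair_val.1 hp
    obtain ⟨h3, h4⟩ := prB_inj h2
    have h5 := natB_inj h3
    change val hl y' = val hl (F n)
    rw [← h4, h5]

theorem app_seqB (F : ℕ → BSet D) (n : ℕ) :
    App (E hl) (val hl (seqB F)) (val hl (natB n)) (val hl (F n)) :=
  ⟨val hl (prB (natB n) (F n)), isPair_val.2 rfl, E_nall_c (c := fun n => prB (natB n) (F n)) n⟩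

theorem app_seqB_uniq {F : ℕ → BSet D} {n : ℕ} {y : X hl}
    (h : App (E hl) (val hl (seqB F)) (val hl (natB n)) y) : y = val hl (F n) :=
  (isMap_seqB F).uniq h (app_seqB F n)

theorem isSeq_seqB (F : ℕ → BSet D) : IsSeq (E hl) (val hl (omB D)) (val hl (seqB F)) :=
  ⟨_, isMap_seqB F⟩

/-- The Lean predicate `Agree` for names of functions. -/
theorem agree_fn {f g : ℕ → ℕ} {j : ℕ}
    (h : Agree (E hl) (val hl (fn f)) (val hl (fn g)) (val hl (natB j))) :
    ∀ m < j, f m = g m := by
  intro m hm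
  have h1 := h (val hl (natB m)) (val hl (natB (f m))) (E_natB.2 ⟨m, hm, rfl⟩) (app_fn.2 rfl)
  exact app_fn.1 h1

theorem agree_fn_of {f g : ℕ → ℕ} {j : ℕ} (h : ∀ m < j, f m = g m) :
    Agree (E hl) (val hl (fn f)) (val hl (fn g)) (val hl (natB j)) := by
  intro k y hk hy
  obtain ⟨m, hm, rfl⟩ := E_natB.1 hk
  have h1 : y = val hl (natB (f m)) := (isMap_fn f).uniq hy (app_fn.2 rfl)
  rw [h1]
  exact app_fn.2 (h m hm)

/-- Names of open sets are open. -/
theorem isOpenB_nchk {O : Set (ℕ → ℕ)} (hO : IsOpen O) :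
    IsOpenB (E hl) (val hl (omB D)) (val hl (nall fn)) (val hl (nchk fn O)) := by
  refine ⟨nchk_sub_nall, fun f hf => ?_⟩
  refine fam_all (c := fn) (Q := fun _ E v => E (v 0) (v 1) → ∃ n, E n (v 2) ∧
      ∀ g, E g (v 3) → Agree E (v 0) g n → E g (v 1)) (v := ps [nchk fn O, omB D, nall fn])
    (by repeat' (with_reducible first | apply Agree.fo | apply FO.mem | apply FO.and | apply FO.imp | apply FO.all | apply FO.ex))
    ⊤ ?_ hl hl.top (nchk_sub_nall f hf) hf
  intro f lam hl _ hf
  have hf' : f ∈ O := (E_nchk_c disj_fn).1 hf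
  obtain ⟨j, hj⟩ := exists_initial hO hf'
  refine ⟨val hl (natB j), E_nall_c j, fun g hg hag => ?_⟩
  refine fam_all (c := fn) (Q := fun _ E v => Agree E (v 1) (v 0) (v 2) → E (v 0) (v 3))
    (v := ps [fn f, natB j, nchk fn O])
    (by repeat' (with_reducible first | apply Agree.fo | apply FO.mem | apply FO.imp))
    ⊤ ?_ hl hl.top hg hag
  intro g lam hl _ hag
  exact (E_nchk_c disj_fn).2 (hj g (agree_fn hag))

/-- Elements of the basic open set given by an initial segment agree with the function. -/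
theorem mem_basic {f : ℕ → ℕ} {j : ℕ} {g : X hl}
    (hg : E hl g (val hl (nchk fn {h | Ext h (seg f j)}))) :
    E hl g (val hl (nall fn)) ∧ Agree (E hl) (val hl (fn f)) g (val hl (natB j)) := by
  have h1 := nchk_sub_nall g hg
  refine ⟨h1, ?_⟩
  refine fam_all (c := fn) (Q := fun _ E v => E (v 0) (v 1) → Agree E (v 2) (v 0) (v 3))
    (v := ps [nchk fn {h | Ext h (seg f j)}, fn f, natB j])
    (by repeat' (with_reducible first | apply Agree.fo | apply FO.mem | apply FO.imp))
    ⊤ ?_ hl hl.top h1 hg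
  intro g lam hl _ hg
  have hg' : g ∈ {h | Ext h (seg f j)} := (E_nchk_c disj_fn).1 hg
  refine agree_fn_of ?_
  have h2 : seg g (seg f j).length = seg f j := hg'
  rw [length_seg, seg_eq_iff] at h2
  exact fun m hm => (h2 m hm).symm

end names

section forcing

variable {P : Type u} [Preorder P]

/-- The name of Baire space, for countably closed forcing. -/
theorem isBaire_nall (hP : SigmaClosed P) {lam : RO P → Prop} (hl : IsUF lam) :
    IsBaire (E hl) (val hl (omB (RO P))) (val hl (nall fn)) := by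
  intro f
  constructor
  · intro hf
    refine fam_all (c := fn) (Q := fun _ E v => IsMap E (v 0) (v 1) (v 1)) (v := ps [omB _])
      (IsMap.fo 0 1 1) ⊤ ?_ hl hl.top hf
    exact fun f lam hl _ => isMap_fn f
  · intro hf
    obtain ⟨f, rfl⟩ := exists_name f
    rw [E_nall]
    have h1 : lam (tvq (IsMap.fo 0 1 1) (ps [f, omB (RO P)])) := (tvq_iff _ _ hl).2 hf
    refine hl.mono ?_ h1
    refine le_iSup_of_dense fun p hp => ?_
    have h2 : Fc p (fun _ E v => IsMap E (v 0) (v 1) (v 2)) (ps [f, omB _, omB _]) := by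
      intro lam hl hlam
      exact (tvq_iff (IsMap.fo 0 1 1) (ps [f, omB (RO P)]) hl).1 (hl.mono hp hlam)
    obtain ⟨q, hq, F, hF⟩ := decide_map hP (c := natB) (c' := natB) h2
      (fun i lam hl _ => E_nall_c i) (fun lam hl _ z hz => hz)
    refine ⟨q, hq, F, ?_⟩
    rw [← fc_eq_iff]
    intro lam hl hlam
    refine map_ext (a := gen q) (d := omB _) (e := omB _)
      (fun lam hl hlam => h2 lam hl (hl.mono (gen_mono hq) hlam)) (fun lam hl _ => isMap_fn F)
      (fun n lam hl hlam => ⟨val hl (natB (F n)), hF n lam hl hlam, app_fn.2 rfl⟩) hl hlam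

end forcing

end GTF
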