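import Mathlib

/-!
# Countable approximations of a generic Sierpinski-type set (MP_10444e_gt)

`Kp = ℕ → ZMod 2` is the Cantor group with Haar measure. A condition is a countable set `s` of
points no two of which are almost equal and a null set `N` which new points have to avoid.
-/

set_option autoImplicit false

namespace GTF

open MeasureTheory Set

/-- The Cantor group. -/
abbrev Kp : Type := ℕ → ZMod 2

/-- Haar measure. -/
noncomputable abbrev mu : Measure Kp := Measure.addHaar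

instance : (nhdsWithin (0 : Kp) {0}ᶜ).NeBot := by
  rw [← mem_closure_iff_nhdsWithin_neBot, mem_closure_iff_nhds]
  intro t ht
  obtain ⟨o, hot, ho, h0⟩ := mem_nhds_iff.1 ht
  obtain ⟨I, u, hu, hI⟩ := isOpen_pi_iff.1 ho 0 h0
  obtain ⟨n, hn⟩ := Infinite.exists_notMem_finset I
  refine ⟨Pi.single n 1, hot (hI ?_), ?_⟩
  · intro i hi
    have hne : i ≠ n := fun h => hn (h ▸ hi)
    rw [Pi.single_eq_of_ne hne]
    exact (hu i hi).2
  · intro h
    have h1 := congrFun (mem_singleton_iff.1 h) n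
    rw [Pi.single_eq_same] at h1
    exact one_ne_zero h1

instance : NullSingletonClass mu := Measure.IsAddHaarMeasure.nullSingletonClass mu

/-- `x` and `y` differ at finitely many places only. -/
def AE (x y : Kp) : Prop := {n | x n ≠ y n}.Finite

theorem ae_countable (y : Kp) : {x : Kp | AE x y}.Countable := by
  classical
  have h : {x : Kp | AE x y} ⊆ range fun F : Finset ℕ => fun n => if n ∈ F then y n + 1 else y n := by
    intro x hx
    have hx : {n | x n ≠ y n}.Finite := hx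
    refine ⟨hx.toFinset, ?_⟩
    funext n
    by_cases hn : x n = y n
    · simp [hn]
    · have h1 : n ∈ hx.toFinset := by simpa using hn
      simp only [h1, if_true]
      generalize x n = a at hn ⊢
      generalize y n = b at hn ⊢
      revert a b
      decide
  exact (countable_range _).mono h

/-- Conditions. -/
structure C2 where
  /-- the points -/
  s : Set Kp
  /-- the promise -/
  N : Set Kp
  s_ctb : s.Countable
  N_null : mu N = 0
  inf : ∀ x ∈ s, ∀ y ∈ s, x ≠ y → ¬ AE x y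

instance : Preorder C2 where
  le q p := p.s ⊆ q.s ∧ p.N ⊆ q.N ∧ ∀ x ∈ q.s, x ∉ p.s → x ∉ p.N
  le_refl p := ⟨subset_rfl, subset_rfl, fun _ h h' => absurd h h'⟩
  le_trans r q p h h' := by
    refine ⟨h'.1.trans h.1, h'.2.1.trans h.2.1, fun x hx hxp => ?_⟩
    by_cases hq : x ∈ q.s
    · exact h'.2.2 x hq hxp
    · exact fun hN => h.2.2 x hx hq (h'.2.1 hN)

theorem C2.le_def (p q : C2) : q ≤ p ↔ p.s ⊆ q.s ∧ p.N ⊆ q.N ∧ ∀ x ∈ q.s, x ∉ p.s → x ∉ p.N :=
  Iff.rfl

/-- The trivial condition. -/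
def C2.triv : C2 := ⟨∅, ∅, countable_empty, measure_empty, fun _ h => absurd h (notMem_empty _)⟩

theorem C2.sigma (s : ℕ → C2) (hs : ∀ n, s (n + 1) ≤ s n) : ∃ q, ∀ n, q ≤ s n := by
  have hmono : ∀ {m n : ℕ}, m ≤ n → s n ≤ s m := by
    intro m n h
    induction n, h using Nat.le_induction with
    | base => exact le_refl _
    | succ n _ ih => exact (hs n).trans ih
  refine ⟨⟨⋃ n, (s n).s, ⋃ n, (s n).N, countable_iUnion fun n => (s n).s_ctb,
    measure_iUnion_null fun n => (s n).N_null, ?_⟩, fun n => ⟨subset_iUnion (fun n => (s n).s) n,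
      subset_iUnion (fun n => (s n).N) n, ?_⟩⟩
  · intro x hx y hy hxy
    obtain ⟨m, hm⟩ := mem_iUnion.1 hx
    obtain ⟨n, hn⟩ := mem_iUnion.1 hy
    exact (s (max m n)).inf x ((hmono (le_max_left m n)).1 hm) y
      ((hmono (le_max_right m n)).1 hn) hxy
  · intro x hx hxn
    obtain ⟨m, hm⟩ := mem_iUnion.1 hx
    rcases le_total m n with h | h
    · exact absurd ((hmono h).1 hm) hxn
    · exact (hmono h).2.2 x hm hxn

/-- Almost every point can be added to a condition. -/
theorem C2.ae_add (p : C2) : ∀ᵐ x ∂mu, x ∉ p.N ∧ ∀ y ∈ p.s, ¬ AE x y := by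
  have h1 : ∀ᵐ x ∂mu, x ∉ p.N := measure_eq_zero_iff_ae_notMem.1 p.N_null
  have h2 : ∀ᵐ x ∂mu, ∀ y ∈ p.s, ¬ AE x y := by
    rw [ae_ball_iff p.s_ctb]
    intro y _
    exact (ae_countable y).ae_notMem mu
  exact h1.and h2

theorem AE.symm {x y : Kp} (h : AE x y) : AE y x := by
  unfold AE at h ⊢
  simpa only [ne_comm] using h

/-- Adding two points. -/
theorem C2.add_pair (p : C2) {x y : Kp} (hx : x ∉ p.N ∧ ∀ v ∈ p.s, ¬ AE x v)
    (hy : y ∉ p.N ∧ ∀ v ∈ p.s, ¬ AE y v) (hxy : x = y ∨ ¬ AE x y) :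
    ∃ q ≤ p, x ∈ q.s ∧ y ∈ q.s := by
  refine ⟨⟨insert x (insert y p.s), p.N, (p.s_ctb.insert y).insert x, p.N_null, ?_⟩,
    ⟨fun z hz => Or.inr (Or.inr hz), subset_rfl, ?_⟩, Or.inl rfl, Or.inr (Or.inl rfl)⟩
  · intro a ha b hb hab
    rcases ha with rfl | rfl | ha <;> rcases hb with rfl | rfl | hb
    · exact absurd rfl hab
    · exact hxy.resolve_left hab
    · exact hx.2 b hb
    · exact fun h => (hxy.resolve_left (fun h => hab h.symm)) h.symm
    · exact absurd rfl hab
    · exact hy.2 b hb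
    · exact fun h => hx.2 a ha h.symm
    · exact fun h => hy.2 a ha h.symm
    · exact p.inf a ha b hb hab
  · rintro a (rfl | rfl | ha) hap
    · exact hx.1
    · exact hy.1
    · exact absurd ha hap

theorem ae_comp {α : Type*} {m : MeasurableSpace α} {μ : Measure α} {f : α → α}
    (hf : MeasurePreserving f μ μ) (p : α → Prop) (h : ∀ᵐ x ∂μ, p x) : ∀ᵐ x ∂μ, p (f x) :=
  hf.quasiMeasurePreserving.tendsto_ae.eventually h

theorem ae_add_right {G : Type*} [AddGroup G] [MeasurableSpace G] [MeasurableAdd₂ G]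
    {μ : Measure G} [μ.IsAddRightInvariant] (z : G) (p : G → Prop) (h : ∀ᵐ x ∂μ, p x) :
    ∀ᵐ x ∂μ, p (x + z) :=
  ae_comp (measurePreserving_add_right μ z) p h

/-- Pairs with prescribed difference can be added. -/
theorem C2.add_diff (p : C2) (z : Kp) (hz0 : z 0 = 1) (hz : {n | z n ≠ 0}.Infinite) :
    ∃ q ≤ p, ∃ x ∈ q.s, ∃ y ∈ q.s, x 0 = 0 ∧ y 0 = 1 ∧ ∀ n, x n ≠ y n ↔ z n ≠ 0 := by
  have h1 := p.ae_add
  have h2 : ∀ᵐ x ∂mu, x + z ∉ p.N ∧ ∀ y ∈ p.s, ¬ AE (x + z) y :=
    ae_add_right (G := Kp) (μ := mu) z (fun x => x ∉ p.N ∧ ∀ y ∈ p.s, ¬ AE x y) h1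
  obtain ⟨x, hx1, hx2⟩ := (h1.and h2).exists
  have hd : ∀ n, x n ≠ (x + z) n ↔ z n ≠ 0 := by
    intro n
    rw [Pi.add_apply]
    constructor
    · intro h h'
      exact h (by rw [h', add_zero])
    · intro h h'
      exact h (by simpa using h'.symm)
  have hne : ¬ AE x (x + z) := by
    intro h
    apply hz
    refine h.subset fun n hn => ?_
    exact (hd n).2 hn
  obtain ⟨q, hq, hxq, hyq⟩ := p.add_pair hx1 hx2 (Or.inr hne)
  by_cases h0 : x 0 = 0
  · refine ⟨q, hq, x, hxq, x + z, hyq, h0, ?_, hd⟩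
    rw [Pi.add_apply, h0, hz0, zero_add]
  · have h1 : x 0 = 1 := by
      generalize x 0 = a at h0
      revert a
      decide
    refine ⟨q, hq, x + z, hyq, x, hxq, ?_, h1, fun n => ?_⟩
    · rw [Pi.add_apply, h1, hz0]
      decide
    · rw [ne_comm]
      exact hd n

end GTF
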