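import Pool.Agent.W_10444e_h88.Ufin

/-!
# The finite-max downward closure is not Menger (MP_10444e_gt)
-/

namespace GTF

open IM IM.BSet BVM TKF

/-- The name of the open set `On n k`. -/
noncomputable def op (n k : ℕ) : BSet (RO C2) := nchk fn (On n k)

/-- The name of the `n`-th cover. -/
noncomputable def cv (n : ℕ) : BSet (RO C2) := nall (op n)

/-- The name of the sequence of the covers. -/
noncomputable def cvs : BSet (RO C2) := seqB cv

theorem domB_iff {X : Type*} {E : X → X → Prop} {w Y g : X} :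
    DomB E w Y g ↔ ∃ F m, IsFin E F ∧ Sub E F Y ∧ E m w ∧ DomF E w F m g := Iff.rfl

theorem triv_mem {lam : RO C2 → Prop} (hl : IsUF lam) : lam (gen C2.triv) := by
  refine hl.mono ?_ hl.top
  intro q _
  exact RO.mem_lower (mem_gen C2.triv) ⟨Set.empty_subset _, Set.empty_subset _,
    fun _ _ _ h => absurd h (Set.notMem_empty _)⟩

/-- Domination in the model gives domination of the standard functions. -/
theorem dom_of {lam : RO C2 → Prop} (hl : IsUF lam) {T : Finset (ℕ → ℕ)} {m : ℕ} {g : ℕ → ℕ}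
    (h : DomF (E hl) (val hl (omB _)) (val hl (nchk fn (T : Set (ℕ → ℕ)))) (val hl (natB m))
      (val hl (fn g))) : Dom (T : Set (ℕ → ℕ)) g := by
  refine ⟨m, fun n hn => ?_⟩
  obtain ⟨f, a, b, hf, ha, hb, hab⟩ := h (val hl (natB n)) (E_nall_c n) (by
    rcases hn.lt_or_eq with h1 | h1
    · exact Or.inl (E_natB.2 ⟨m, h1, rfl⟩)
    · exact Or.inr (by rw [h1]))
  obtain ⟨f, hfT, rfl⟩ := E_nchk_finset.1 hf
  have e1 : a = val hl (natB (g n)) := (isMap_fn g).uniq ha (app_fn.2 rfl)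
  have e2 : b = val hl (natB (f n)) := (isMap_fn f).uniq hb (app_fn.2 rfl)
  refine ⟨f, hfT, ?_⟩
  rw [e1, e2] at hab
  rcases hab with h1 | h1
  · obtain ⟨k, hk, h2⟩ := E_natB.1 h1
    rw [natB_inj h2]
    exact hk.le
  · exact (natB_inj h1).le

/-- The covers cover. -/
theorem cover_G {lam : RO C2 → Prop} (hl : IsUF lam) (n : ℕ) {g : X hl}
    (hg : E hl g (val hl (nall fn))) (hd : DomB (E hl) (val hl (omB _)) (val hl nY) g) :
    ∃ O, E hl O (val hl (cv n)) ∧ E hl g O := by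
  classical
  refine fam_all (c := fn) (Q := fun _ E v => DomB E (v 1) (v 2) (v 0) →
      ∃ O, E O (v 3) ∧ E (v 0) O) (v := ps [omB _, nY, cv n])
    (by repeat' (with_reducible first | apply DomB.fo | apply FO.mem | apply FO.and | apply FO.imp | apply FO.ex))
    ⊤ ?_ hl hl.top hg hd
  rintro g lam hl - ⟨F, m, hF, hFY, hm, hdom⟩
  have hF1 : E hl F (val hl (nfin fn)) := mem_nfin_iff.2 ⟨hF, fun z hz => Y_sub z (hFY z hz)⟩
  refine fam_all (c := fun T : Finset (ℕ → ℕ) => nchk fn (T : Set (ℕ → ℕ)))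
    (Q := fun _ E v => ∀ m, Sub E (v 0) (v 1) → E m (v 2) → DomF E (v 2) (v 0) m (v 3) →
      ∃ O, E O (v 4) ∧ E (v 3) O) (v := ps [nY, omB _, fn g, cv n])
    (by repeat' (with_reducible first | apply DomF.fo | apply Sub.fo | apply FO.mem | apply FO.and | apply FO.imp | apply FO.all | apply FO.ex))
    ⊤ ?_ hl hl.top hF1 m hFY hm hdom
  intro T lam hl _ m hFY hm hdom
  refine nat_all (Q := fun _ E v => Sub E (v 1) (v 2) → DomF E (v 3) (v 1) (v 0) (v 4) →
      ∃ O, E O (v 5) ∧ E (v 4) O)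
    (v := ps [nchk fn (T : Set (ℕ → ℕ)), nY, omB _, fn g, cv n])
    (by repeat' (with_reducible first | apply DomF.fo | apply Sub.fo | apply FO.mem | apply FO.and | apply FO.imp | apply FO.all | apply FO.ex))
    ⊤ ?_ hl hl.top hm hFY hdom
  intro m lam hl _ hFY hdom
  obtain ⟨r, _, T', hT', hTT⟩ := exists_cond hl (T := T) hFY (triv_mem hl)
  have h1 : Dom (T : Set (ℕ → ℕ)) g := dom_of hl hdom
  have h2 : Dom (Psi '' (T' : Set Kp)) g := by
    obtain ⟨m₀, hm₀⟩ := h1
    refine ⟨m₀, fun k hk => ?_⟩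
    obtain ⟨f, hf, hle⟩ := hm₀ k hk
    obtain ⟨x, hx, rfl⟩ := hTT f hf
    exact ⟨Psi x, ⟨x, hx, rfl⟩, hle⟩
  obtain ⟨k, hk⟩ := r.mem_On_of_dom T'.finite_toSet hT' h2 n
  exact ⟨val hl (op n k), E_nall_c k, (E_nchk_c disj_fn).2 hk⟩

/-- Generic pairs are dominated. -/
theorem domB_Mx {lam : RO C2 → Prop} (hl : IsUF lam) {q : C2} (hq : lam (gen q)) {x y : Kp}
    (hx : x ∈ q.s) (hy : y ∈ q.s) :
    DomB (E hl) (val hl (omB _)) (val hl nY) (val hl (fn (Mx x y))) := by
  classical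
  refine ⟨val hl (nchk fn (({Psi x, Psi y} : Finset (ℕ → ℕ)) : Set (ℕ → ℕ))), val hl (natB 0),
    isFin_nchk _, ?_, E_nall_c 0, ?_⟩
  · intro z hz
    obtain ⟨f, hf, rfl⟩ := E_nchk_finset.1 hz
    rcases Finset.mem_insert.1 hf with rfl | hf
    · exact E_Y_of hq hx
    · rw [Finset.mem_singleton.1 hf]
      exact E_Y_of hq hy
  · intro n hn _
    refine nat_all (Q := fun _ E v => ∃ f a b, E f (v 1) ∧ App E (v 2) (v 0) a ∧
        App E f (v 0) b ∧ (E a b ∨ a = b))
      (v := ps [nchk fn (({Psi x, Psi y} : Finset (ℕ → ℕ)) : Set (ℕ → ℕ)), fn (Mx x y)])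
      (by repeat' (with_reducible first | apply App.fo | apply FO.mem | apply FO.eq | apply FO.and | apply FO.or | apply FO.imp | apply FO.ex))
      ⊤ ?_ hl hl.top hn
    intro n lam hl _
    have h1 : Mx x y n = Psi x n ∨ Mx x y n = Psi y n := max_choice _ _
    rcases h1 with h1 | h1
    · exact ⟨val hl (fn (Psi x)), val hl (natB (Mx x y n)), val hl (natB (Psi x n)),
        E_nchk_finset.2 ⟨Psi x, by simp, rfl⟩, app_fn.2 rfl, app_fn.2 rfl, Or.inr (by rw [h1])⟩
    · exact ⟨val hl (fn (Psi y)), val hl (natB (Mx x y n)), val hl (natB (Psi y n)),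
        E_nchk_finset.2 ⟨Psi y, by simp, rfl⟩, app_fn.2 rfl, app_fn.2 rfl, Or.inr (by rw [h1])⟩

/-- The covers have no finite subcovers. -/
theorem no_finite {lam : RO C2 → Prop} (hl : IsUF lam) (n : ℕ) {F : X hl}
    (hF : IsFin (E hl) F) (hFC : Sub (E hl) F (val hl (cv n))) :
    ∃ g, E hl g (val hl (nall fn)) ∧ DomB (E hl) (val hl (omB _)) (val hl nY) g ∧
      ∀ O, E hl O F → ¬ E hl g O := by
  classical
  have hF1 : E hl F (val hl (nfin (op n))) := mem_nfin_iff.2 ⟨hF, hFC⟩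
  refine fam_all (c := fun K : Finset ℕ => nchk (op n) (K : Set ℕ))
    (Q := fun _ E v => ∃ g, E g (v 1) ∧ DomB E (v 2) (v 3) g ∧ ∀ O, E O (v 0) → ¬ E g O)
    (v := ps [nall fn, omB _, nY])
    (by repeat' (with_reducible first | apply DomB.fo | apply FO.mem | apply FO.not | apply FO.and | apply FO.imp | apply FO.all | apply FO.ex))
    ⊤ ?_ hl hl.top hF1
  intro K lam hl _
  by_contra hcon
  obtain ⟨p, hp⟩ := Fc.exists (Q := fun _ E v => ¬ ∃ g, E g (v 1) ∧ DomB E (v 2) (v 3) g ∧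
      ∀ O, E O (v 0) → ¬ E g O)
    (v := ps [nchk (op n) (K : Set ℕ), nall fn, omB _, nY])
    (by repeat' (with_reducible first | apply DomB.fo | apply FO.mem | apply FO.not | apply FO.and | apply FO.imp | apply FO.all | apply FO.ex))
    hl hcon
  obtain ⟨q, hq, x, hx, y, hy, hxy⟩ := p.exists_escape fun _ => K.sup id
  obtain ⟨lam, hl, hlam⟩ := exists_uf q
  refine hp lam hl (hl.mono (gen_mono hq) hlam) ⟨val hl (fn (Mx x y)), E_nall_c (Mx x y),
    domB_Mx hl hlam hx hy, fun O hO hxO => ?_⟩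
  obtain ⟨k, hk, rfl⟩ := E_nchk_finset.1 hO
  have h1 : Mx x y ∈ On n k := (E_nchk_c disj_fn).1 hxO
  exact hxy n (On_mono n (Finset.le_sup (f := id) hk) h1)

/-- No selection of finite subfamilies covers. -/
theorem no_selection {lam : RO C2 → Prop} (hl : IsUF lam) {t : X hl}
    (ht : FinSel (E hl) (val hl (omB _)) (val hl cvs) t) :
    ¬ ∀ g, E hl g (val hl (nall fn)) → DomB (E hl) (val hl (omB _)) (val hl nY) g →
      ∃ n F O, App (E hl) t n F ∧ E hl O F ∧ E hl g O := by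
  classical
  intro hcon
  obtain ⟨t, rfl⟩ := exists_name t
  obtain ⟨p, hp⟩ := Fc.exists (Q := fun _ E v => FinSel E (v 0) (v 1) (v 2) ∧
      ∀ g, E g (v 3) → DomB E (v 0) (v 4) g → ∃ n F O, App E (v 2) n F ∧ E O F ∧ E g O)
    (v := ps [omB _, cvs, t, nall fn, nY])
    (by repeat' (with_reducible first | apply FinSel.fo | apply DomB.fo | apply App.fo | apply FO.mem | apply FO.not | apply FO.and | apply FO.imp | apply FO.all | apply FO.ex))
    hl ⟨ht, hcon⟩
  have hsel : ∀ (lam : RO C2 → Prop) (hl : IsUF lam), lam (gen p) →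
      FinSel (E hl) (val hl (omB _)) (val hl cvs) (val hl t) := fun lam hl h => (hp lam hl h).1
  -- decide the finite selections
  obtain ⟨q, hq, hK⟩ := c2_sigma.meet' (ι := ℕ) p
    (fun n q => ∃ K : Finset ℕ, Fc q (fun _ E v => App E (v 0) (v 1) (v 2))
      (ps [t, natB n, nchk (op n) (K : Set ℕ)]))
    (fun n q r hd hr => hd.imp fun k h => h.mono hr)
    (by
      intro n q hq
      obtain ⟨F, hF⟩ := exists_witness (Q := fun _ E v => App E (v 1) (v 2) (v 0)) (App.fo 1 2 0)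
        (ps [t, natB n]) (gen q) (by
          intro lam hl hlam
          obtain ⟨⟨d, hd⟩, _⟩ := hsel lam hl (hl.mono (gen_mono hq) hlam)
          obtain ⟨F, hF, _⟩ := hd.2 (val hl (natB n)) (E_nall_c n)
          exact ⟨F, hF⟩)
      have h1 : gen q ≤ ⨆ K : Finset ℕ, beq F (nchk (op n) (K : Set ℕ)) := by
        rw [le_iff_uf]
        intro lam hl hlam
        rw [← E_nfin (hl := hl), mem_nfin_iff]
        exact (hsel lam hl (hl.mono (gen_mono hq) hlam)).2 _ _ _ (app_seqB cv n)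
          (hF lam hl hlam)
      obtain ⟨r, hr, K, hK⟩ := exists_index h1
      refine ⟨r, hr, K, fun lam hl hlam => ?_⟩
      have h2 : val hl F = val hl (nchk (op n) (K : Set ℕ)) := val_eq.2 (hl.mono hK hlam)
      have h3 : App (E hl) (val hl t) (val hl (natB n)) (val hl F) :=
        hF lam hl (hl.mono (gen_mono hr) hlam)
      rw [h2] at h3
      exact h3)
  choose K hK using hK
  obtain ⟨r, hr, x, hx, y, hy, hxy⟩ := q.exists_escape fun n => (K n).sup id
  obtain ⟨lam, hl, hlam⟩ := exists_uf r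
  obtain ⟨⟨⟨d, hd⟩, h1⟩, h2⟩ := hp lam hl (hl.mono (gen_mono (hr.trans hq)) hlam)
  obtain ⟨n, F, O, hnF, hOF, hgO⟩ := h2 _ (E_nall_c (Mx x y)) (domB_Mx hl hlam hx hy)
  refine nat_all (Q := fun _ E v => ∀ F O, App E (v 1) (v 0) F → E O F → ¬ E (v 2) O)
    (v := ps [t, fn (Mx x y)])
    (by repeat' (with_reducible first | apply App.fo | apply FO.mem | apply FO.not | apply FO.and | apply FO.imp | apply FO.all | apply FO.ex))
    (gen r) ?_ hl hlam (hd.mem hnF).1 F O hnF hOF hgO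
  intro n lam hl hlam F O hnF hOF hgO
  obtain ⟨⟨d, hd⟩, _⟩ := hsel lam hl (hl.mono (gen_mono (hr.trans hq)) hlam)
  have h3 : F = val hl (nchk (op n) (K n : Set ℕ)) :=
    hd.uniq hnF (hK n lam hl (hl.mono (gen_mono hr) hlam))
  rw [h3] at hOF
  obtain ⟨k, hk, rfl⟩ := E_nchk_finset.1 hOF
  have h4 : Mx x y ∈ On n k := (E_nchk_c disj_fn).1 hgO
  exact hxy n (On_mono n (Finset.le_sup (f := id) hk) h4)

/-- The sequence of covers is an admissible sequence. -/
theorem coverSeq_G {lam : RO C2 → Prop} (hl : IsUF lam) {G : X hl}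
    (hG : IsG (E hl) (val hl (omB _)) (val hl (nall fn)) (val hl nY) G) :
    CoverSeq (E hl) (val hl (omB _)) (val hl (nall fn)) G (val hl cvs) := by
  refine ⟨isSeq_seqB cv, fun n C hC => ?_⟩
  -- properties of the `n`-th cover
  have key : (∀ O, E hl O C → IsOpenB (E hl) (val hl (omB _)) (val hl (nall fn)) O) ∧
      (∀ g, E hl g (val hl (nall fn)) → DomB (E hl) (val hl (omB _)) (val hl nY) g →
        ∃ O, E hl O C ∧ E hl g O) ∧
      ∀ F, IsFin (E hl) F → Sub (E hl) F C →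
        ∃ g, E hl g (val hl (nall fn)) ∧ DomB (E hl) (val hl (omB _)) (val hl nY) g ∧
          ∀ O, E hl O F → ¬ E hl g O := by
    refine nat_all (Q := fun _ E v => ∀ C, App E (v 1) (v 0) C →
        (∀ O, E O C → IsOpenB E (v 2) (v 3) O) ∧
        (∀ g, E g (v 3) → DomB E (v 2) (v 4) g → ∃ O, E O C ∧ E g O) ∧
        ∀ F, IsFin E F → Sub E F C → ∃ g, E g (v 3) ∧ DomB E (v 2) (v 4) g ∧
          ∀ O, E O F → ¬ E g O)
      (v := ps [cvs, omB _, nall fn, nY])
      (by repeat' (with_reducible first | apply IsOpenB.fo | apply DomB.fo | apply IsFin.fo | apply Sub.fo | apply App.fo | apply FO.mem | apply FO.not | apply FO.and | apply FO.imp | apply FO.all | apply FO.ex))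
      ⊤ ?_ hl hl.top ((isMap_seqB cv).mem hC).1 C hC
    intro n lam hl _ C hC
    have h1 : C = val hl (cv n) := app_seqB_uniq hC
    subst h1
    refine ⟨fun O hO => ?_, fun g hg hd => cover_G hl n hg hd, fun F hF hFC => no_finite hl n hF hFC⟩
    refine fam_all (c := op n) (Q := fun _ E v => IsOpenB E (v 1) (v 2) (v 0))
      (v := ps [omB _, nall fn]) (IsOpenB.fo 1 2 0) ⊤ ?_ hl hl.top hO
    exact fun k lam hl _ => isOpenB_nchk (isOpen_On n k)
  obtain ⟨h1, h2, h3⟩ := key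
  refine ⟨⟨h1, fun g hg => h2 g ((hG g).1 hg).1 ((hG g).1 hg).2⟩, fun F hF hFC hcov => ?_⟩
  obtain ⟨g, hg1, hg2, hg3⟩ := h3 F hF hFC
  obtain ⟨O, hO, hgO⟩ := hcov g ((hG g).2 ⟨hg1, hg2⟩)
  exact hg3 O hO hgO

/-- **`G(Y)` is not Menger.** -/
theorem not_menger {lam : RO C2 → Prop} (hl : IsUF lam) {G : X hl}
    (hG : IsG (E hl) (val hl (omB _)) (val hl (nall fn)) (val hl nY) G) :
    ¬ Menger (E hl) (val hl (omB _)) (val hl (nall fn)) G := by
  intro hM
  obtain ⟨h1, h2⟩ := coverSeq_G hl hG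
  obtain ⟨t, ht, h3⟩ := hM _ h1 fun n C h => (h2 n C h).1
  exact no_selection hl ht fun g hg hd => h3 g ((hG g).2 ⟨hg, hd⟩)

/-- Singletons. -/
theorem exists_singleton {D : Type} [CompleteBooleanAlgebra D] {lam : D → Prop} (hl : IsUF lam)
    (z : X hl) : ∃ A, IsFin (E hl) A ∧ ∀ y, E hl y A ↔ y = z := by
  obtain ⟨z, rfl⟩ := exists_name z
  refine ⟨val hl (nchk (fun _ : Unit => z) (({()} : Finset Unit) : Set Unit)), isFin_nchk _,
    fun y => ?_⟩
  rw [E_nchk_finset]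
  constructor
  · rintro ⟨_, _, h⟩
    exact h
  · intro h
    exact ⟨(), Finset.mem_singleton_self _, h⟩

/-- **`G(Y)` does not have the property `U_fin(O, Ω)`.** -/
theorem not_ufin {lam : RO C2 → Prop} (hl : IsUF lam) {G : X hl}
    (hG : IsG (E hl) (val hl (omB _)) (val hl (nall fn)) (val hl nY) G) :
    ¬ UfinOmega (E hl) (val hl (omB _)) (val hl (nall fn)) G := by
  intro hM
  obtain ⟨h1, h2⟩ := coverSeq_G hl hG
  obtain ⟨t, ht, _, h3⟩ := hM _ h1 h2
  refine no_selection hl ht fun g hg hd => ?_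
  obtain ⟨A, hA1, hA2⟩ := exists_singleton hl g
  obtain ⟨n, F, hF, hcov⟩ := h3 A hA1 fun z hz => by
    rw [(hA2 z).1 hz]
    exact (hG g).2 ⟨hg, hd⟩
  obtain ⟨O, hO, hgO⟩ := hcov g ((hA2 g).2 rfl)
  exact ⟨n, F, O, hF, hO, hgO⟩

/-- `G(Y)` exists. -/
theorem exists_G {lam : RO C2 → Prop} (hl : IsUF lam) :
    ∃ G, IsG (E hl) (val hl (omB _)) (val hl (nall fn)) (val hl nY) G := by
  obtain ⟨G, hG⟩ := exists_sep (hl := hl) (Q := fun _ E v => DomB E (v 1) (v 2) (v 0))
    (DomB.fo 1 2 0) (fun n => val hl (ps [omB _, nY] n)) (val hl (nall fn))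
  exact ⟨G, fun g => hG g⟩

end GTF
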