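import Pool.Agent.W_10444e_h88.Cond

/-!
# Coding points by functions (MP_10444e_gt)

`Psi x : ℕ → ℕ` is the characteristic function of the set of codes of the initial segments of `x`.
-/

set_option autoImplicit false

namespace GTF

open MeasureTheory Set

/-- An injective coding of finite sequences by natural numbers. -/
noncomputable def code : List (ZMod 2) → ℕ := (exists_injective_nat (List (ZMod 2))).choose

theorem code_inj : Function.Injective code := (exists_injective_nat (List (ZMod 2))).choose_spec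

/-- The initial segment of `x` of length `n`. -/
def pre (x : Kp) (n : ℕ) : List (ZMod 2) := (List.range n).map x

theorem length_pre (x : Kp) (n : ℕ) : (pre x n).length = n := by simp [pre]

theorem pre_eq_iff {x y : Kp} {n : ℕ} : pre x n = pre y n ↔ ∀ i < n, x i = y i := by
  unfold pre
  rw [List.map_inj_left]
  simp

theorem code_pre_inj {x y : Kp} {m n : ℕ} (h : code (pre x m) = code (pre y n)) :
    m = n ∧ ∀ i < n, x i = y i := by
  have h1 := code_inj h
  have h2 : m = n := by rw [← length_pre x m, h1, length_pre]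
  subst h2
  exact ⟨rfl, pre_eq_iff.1 h1⟩

open Classical in
/-- The function coding `x`. -/
noncomputable def Psi (x : Kp) (m : ℕ) : ℕ := if ∃ n, code (pre x n) = m then 1 else 0

theorem Psi_code (x : Kp) (n : ℕ) : Psi x (code (pre x n)) = 1 := if_pos ⟨n, rfl⟩

theorem Psi_le_one (x : Kp) (m : ℕ) : Psi x m ≤ 1 := by
  unfold Psi
  split <;> omega

theorem Psi_code_eq_zero {x y : Kp} {n : ℕ} (h : ¬ ∀ i < n, x i = y i) :
    Psi y (code (pre x n)) = 0 := by
  refine if_neg ?_
  rintro ⟨k, hk⟩
  obtain ⟨rfl, h1⟩ := code_pre_inj hk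
  exact h fun i hi => (h1 i hi).symm

/-- `Psi x m` depends on finitely many coordinates of `x`. -/
theorem Psi_local (m : ℕ) : ∃ n, ∀ x y : Kp, (∀ i < n, x i = y i) → Psi x m = Psi y m := by
  classical
  by_cases hm : ∃ t, code t = m
  · obtain ⟨t, rfl⟩ := hm
    refine ⟨t.length, fun x y h => ?_⟩
    have key : ∀ x y : Kp, (∀ i < t.length, x i = y i) → (∃ n, code (pre x n) = code t) →
        ∃ n, code (pre y n) = code t := by
      rintro x y h ⟨n, hn⟩
      have h1 := code_inj hn
      have h2 : n = t.length := by rw [← h1, length_pre]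
      refine ⟨n, ?_⟩
      rw [← hn, pre_eq_iff.2]
      intro i hi
      exact (h i (h2 ▸ hi)).symm
    unfold Psi
    by_cases h1 : ∃ n, code (pre x n) = code t
    · rw [if_pos h1, if_pos (key x y h h1)]
    · rw [if_neg h1, if_neg fun h2 => h1 (key y x (fun i hi => (h i hi).symm) h2)]
  · refine ⟨0, fun x y _ => ?_⟩
    have h1 : ∀ x : Kp, ¬ ∃ n, code (pre x n) = m := fun x ⟨n, hn⟩ => hm ⟨_, hn⟩
    unfold Psi
    rw [if_neg (h1 x), if_neg (h1 y)]

/-- A function on `Kp` which depends locally on finitely many coordinates is continuous. -/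
theorem continuous_of_local {T : Type*} [TopologicalSpace T] (f : Kp → T) (n : ℕ)
    (h : ∀ x y : Kp, (∀ i < n, x i = y i) → f x = f y) : Continuous f := by
  refine IsLocallyConstant.continuous ?_
  rw [IsLocallyConstant.iff_exists_open]
  intro x
  refine ⟨⋂ i ∈ Finset.range n, {y : Kp | y i = x i}, ?_, ?_, ?_⟩
  · refine isOpen_biInter_finset fun i _ => ?_
    have h1 : IsOpen ((fun y : Kp => y i) ⁻¹' ({x i} : Set (ZMod 2))) :=
      (isOpen_discrete _).preimage (continuous_apply i)
    exact h1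
  · simp
  · intro y hy
    refine h y x fun i hi => ?_
    have := mem_iInter₂.1 hy i (Finset.mem_range.2 hi)
    exact this

theorem continuous_Psi : Continuous Psi := by
  refine continuous_pi fun m => ?_
  obtain ⟨n, hn⟩ := Psi_local m
  exact continuous_of_local (fun x => Psi x m) n hn

/-- The maximum of two codes. -/
noncomputable def Mx (x y : Kp) (m : ℕ) : ℕ := max (Psi x m) (Psi y m)

theorem continuous_Mx : Continuous fun p : Kp × Kp => Mx p.1 p.2 := by
  refine continuous_pi fun m => ?_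
  have h := (continuous_apply m).comp continuous_Psi
  exact (h.comp continuous_fst).max (h.comp continuous_snd)

/-- `g` is eventually below the maximum of the functions in `F`. -/
def Dom (F : Set (ℕ → ℕ)) (g : ℕ → ℕ) : Prop := ∃ m₀, ∀ m ≥ m₀, ∃ f ∈ F, g m ≤ f m

/-- If a code is eventually dominated by finitely many codes then it is one of them. -/
theorem mem_of_dom {x : Kp} {g : ℕ → ℕ} (hg : ∀ m, Psi x m ≤ g m) {T : Set Kp} (hT : T.Finite)
    (h : Dom (Psi '' T) g) : x ∈ T := by
  classical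
  by_contra hx
  obtain ⟨m₀, hm₀⟩ := h
  have h1 : ∀ v ∈ T, ∃ n, x n ≠ v n := by
    intro v hv
    by_contra hcon
    push Not at hcon
    exact hx (by rw [funext hcon]; exact hv)
  choose! n hn using h1
  let n₀ := (hT.toFinset.sup n) + 1
  have h2 : ∀ k ≥ n₀, ∀ v ∈ T, Psi v (code (pre x k)) = 0 := by
    intro k hk v hv
    refine Psi_code_eq_zero fun h => hn v hv (h _ ?_)
    have : n v ≤ hT.toFinset.sup n := Finset.le_sup (hT.mem_toFinset.2 hv)
    omega
  -- the codes of long initial segments are unbounded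
  have h3 : (Set.range fun k => code (pre x (n₀ + k))).Infinite := by
    refine Set.infinite_range_of_injective fun a b hab => ?_
    have := (code_pre_inj hab).1
    omega
  obtain ⟨m, ⟨k, rfl⟩, hm⟩ := h3.exists_gt m₀
  obtain ⟨_, ⟨v, hv, rfl⟩, hle⟩ := hm₀ _ hm.le
  have h4 := h2 (n₀ + k) (by omega) v hv
  have h5 := hg (code (pre x (n₀ + k)))
  rw [Psi_code] at h5
  have h6 : g (code (pre x (n₀ + k))) ≤ 0 := h4 ▸ hle
  omega

theorem Psi_inj {x y : Kp} (h : Psi x = Psi y) : x = y := by
  have := mem_of_dom (x := x) (g := Psi y) (fun m => by rw [h]) (T := {y}) (finite_singleton y)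
    ⟨0, fun m _ => ⟨Psi y, ⟨y, rfl, rfl⟩, le_rfl⟩⟩
  exact this

/-- The number of places below `k` where `x` and `y` differ. -/
def cnt (x y : Kp) (k : ℕ) : ℕ := ((Finset.range k).filter fun i => x i ≠ y i).card

/-- The open sets of the covers: `On n k` is the set of all `g` which are not the maximum of the
codes of `x` and `y` with `x 0 = 0`, `y 0 = 1` and at most `n + 1` differences below `k`. -/
def On (n k : ℕ) : Set (ℕ → ℕ) :=
  {g | ¬ ∃ x y : Kp, x 0 = 0 ∧ y 0 = 1 ∧ g = Mx x y ∧ cnt x y k ≤ n + 1}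

theorem On_mono (n : ℕ) {k l : ℕ} (h : k ≤ l) : On n k ⊆ On n l := by
  rintro g hg ⟨x, y, h1, h2, h3, h4⟩
  refine hg ⟨x, y, h1, h2, h3, le_trans ?_ h4⟩
  refine Finset.card_le_card (Finset.filter_subset_filter _ ?_)
  exact Finset.range_mono h

theorem isOpen_On (n k : ℕ) : IsOpen (On n k) := by
  have h1 : (On n k)ᶜ = (fun p : Kp × Kp => Mx p.1 p.2) ''
      {p : Kp × Kp | p.1 0 = 0 ∧ p.2 0 = 1 ∧ cnt p.1 p.2 k ≤ n + 1} := by
    ext g
    simp only [On, mem_compl_iff, mem_ofPred_eq, not_not, mem_image, Prod.exists]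
    constructor
    · rintro ⟨x, y, h1, h2, h3, h4⟩
      exact ⟨x, y, ⟨h1, h2, h4⟩, h3.symm⟩
    · rintro ⟨x, y, ⟨h1, h2, h4⟩, h3⟩
      exact ⟨x, y, h1, h2, h3.symm, h4⟩
  rw [← isClosed_compl_iff, h1]
  refine IsCompact.isClosed (IsCompact.image (IsClosed.isCompact ?_) continuous_Mx)
  have c1 : Continuous fun p : Kp × Kp => p.1 0 := (continuous_apply 0).comp continuous_fst
  have c2 : Continuous fun p : Kp × Kp => p.2 0 := (continuous_apply 0).comp continuous_snd
  refine IsClosed.inter (isClosed_eq c1 continuous_const)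
    (IsClosed.inter (isClosed_eq c2 continuous_const) ?_)
  -- the count is locally constant
  have hc : Continuous fun p : Kp × Kp => cnt p.1 p.2 k := by
    have h2 : (fun p : Kp × Kp => cnt p.1 p.2 k) =
        fun p => ∑ i ∈ Finset.range k, if p.1 i ≠ p.2 i then 1 else 0 := by
      funext p
      simp only [cnt, Finset.card_filter]
    rw [h2]
    refine continuous_finsetSum _ fun i _ => ?_
    have h3 : Continuous fun p : Kp × Kp => (p.1 i, p.2 i) :=
      ((continuous_apply i).comp continuous_fst).prodMk ((continuous_apply i).comp continuous_snd)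
    exact (continuous_of_discreteTopology (f := fun q : ZMod 2 × ZMod 2 =>
      if q.1 ≠ q.2 then (1 : ℕ) else 0)).comp h3
  exact isClosed_le hc continuous_const

/-- Openness in terms of initial segments. -/
theorem exists_initial {O : Set (ℕ → ℕ)} (hO : IsOpen O) {f : ℕ → ℕ} (hf : f ∈ O) :
    ∃ j, ∀ g : ℕ → ℕ, (∀ m < j, f m = g m) → g ∈ O := by
  obtain ⟨I, u, hu, hI⟩ := isOpen_pi_iff.1 hO f hf
  refine ⟨I.sup id + 1, fun g hg => hI ?_⟩
  intro i hi
  have h1 : i ≤ I.sup id := Finset.le_sup (f := id) (Finset.mem_coe.1 hi)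
  rw [← hg i (by omega)]
  exact (hu i hi).2

/-- If `x` and `y` differ infinitely often, the maximum of the codes is in some `On n k`. -/
theorem exists_mem_On {x y : Kp} (h : ¬ AE x y) (hx : x 0 = 0) (hy : y 0 = 1) (n : ℕ) :
    ∃ k, Mx x y ∈ On n k := by
  classical
  obtain ⟨s, hs, hcard⟩ := Set.Infinite.exists_subset_card_eq (s := {n | x n ≠ y n}) h (n + 2)
  refine ⟨s.sup id + 1, ?_⟩
  rintro ⟨x', y', h1, h2, h3, h4⟩
  have hx' : x ∈ ({x', y'} : Set Kp) := by
    refine mem_of_dom (g := Mx x y) (fun m => le_max_left _ _) (by simp) ⟨0, fun m _ => ?_⟩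
    rw [h3]
    rcases le_total (Psi x' m) (Psi y' m) with h | h
    · exact ⟨_, ⟨y', by simp, rfl⟩, by rw [Mx, max_eq_right h]⟩
    · exact ⟨_, ⟨x', by simp, rfl⟩, by rw [Mx, max_eq_left h]⟩
  have hy' : y ∈ ({x', y'} : Set Kp) := by
    refine mem_of_dom (g := Mx x y) (fun m => le_max_right _ _) (by simp) ⟨0, fun m _ => ?_⟩
    rw [h3]
    rcases le_total (Psi x' m) (Psi y' m) with h | h
    · exact ⟨_, ⟨y', by simp, rfl⟩, by rw [Mx, max_eq_right h]⟩
    · exact ⟨_, ⟨x', by simp, rfl⟩, by rw [Mx, max_eq_left h]⟩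
  have e1 : x = x' := by
    rcases hx' with h | h
    · exact h
    · exfalso
      have h5 : x = y' := h
      rw [h5, h2] at hx
      exact one_ne_zero hx
  have e2 : y = y' := by
    rcases hy' with h | h
    · exfalso
      rw [h, h1] at hy
      exact zero_ne_one hy
    · exact h
  rw [← e1, ← e2] at h4
  have h5 : s ⊆ (Finset.range (s.sup id + 1)).filter fun i => x i ≠ y i := by
    intro i hi
    refine Finset.mem_filter.2 ⟨Finset.mem_range.2 (Nat.lt_succ_of_le ?_), hs (Finset.mem_coe.2 hi)⟩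
    exact Finset.le_sup (f := id) hi
  have h6 := Finset.card_le_card h5
  rw [hcard] at h6
  have h7 : cnt x y (s.sup id + 1) ≤ n + 1 := h4
  unfold cnt at h7
  omega

/-- Sparse differences. -/
theorem exists_sparse (φ : ℕ → ℕ) : ∃ z : Kp, z 0 = 1 ∧ {n | z n ≠ 0}.Infinite ∧
    ∀ n, ((Finset.range (φ n)).filter fun i => z i ≠ 0).card ≤ n + 1 := by
  classical
  -- the support
  let a : ℕ → ℕ := fun n => Nat.rec 0 (fun n b => b + 1 + ∑ i ∈ Finset.range (n + 1), φ i) n
  have ha0 : a 0 = 0 := rfl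
  have ha : ∀ n, a (n + 1) = a n + 1 + ∑ i ∈ Finset.range (n + 1), φ i := fun n => rfl
  have hmono : StrictMono a := strictMono_nat_of_lt_succ fun n => by rw [ha]; omega
  have hφ : ∀ n, φ n ≤ a (n + 1) := by
    intro n
    have : φ n ≤ ∑ i ∈ Finset.range (n + 1), φ i :=
      Finset.single_le_sum (f := φ) (fun _ _ => Nat.zero_le _)
        (Finset.mem_range.2 (Nat.lt_succ_self n))
    rw [ha]
    omega
  refine ⟨fun n => if n ∈ range a then 1 else 0, ?_, ?_, ?_⟩
  · exact if_pos ⟨0, ha0⟩
  · have : {n | (if n ∈ range a then (1 : ZMod 2) else 0) ≠ 0} = range a := by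
      ext n
      rw [mem_ofPred_eq]
      by_cases h : n ∈ range a
      · rw [if_pos h]
        exact ⟨fun _ => h, fun _ => one_ne_zero⟩
      · rw [if_neg h]
        exact ⟨fun h' => absurd rfl h', fun h' => absurd h' h⟩
    rw [this]
    exact infinite_range_of_injective hmono.injective
  · intro n
    have h1 : ((Finset.range (φ n)).filter fun i => (if i ∈ range a then (1 : ZMod 2) else 0) ≠ 0)
        ⊆ (Finset.range (n + 1)).image a := by
      intro i hi
      obtain ⟨h2, h3⟩ := Finset.mem_filter.1 hi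
      have h4 : i ∈ range a := by
        by_contra h
        exact h3 (if_neg h)
      obtain ⟨j, rfl⟩ := h4
      refine Finset.mem_image.2 ⟨j, Finset.mem_range.2 ?_, rfl⟩
      have h5 := (Finset.mem_range.1 h2).trans_le (hφ n)
      exact hmono.lt_iff_lt.1 h5
    exact (Finset.card_le_card h1).trans (Finset.card_image_le.trans (by simp))

/-- **Density for the failure.** -/
theorem C2.exists_escape (p : C2) (φ : ℕ → ℕ) : ∃ q ≤ p, ∃ x ∈ q.s, ∃ y ∈ q.s,
    ∀ n, Mx x y ∉ On n (φ n) := by
  classical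
  obtain ⟨z, hz0, hz, hzc⟩ := exists_sparse φ
  obtain ⟨q, hq, x, hx, y, hy, hx0, hy0, hxy⟩ := p.add_diff z hz0 hz
  refine ⟨q, hq, x, hx, y, hy, fun n h => h ⟨x, y, hx0, hy0, rfl, ?_⟩⟩
  refine le_trans (le_of_eq ?_) (hzc n)
  unfold cnt
  congr 1
  ext i
  simp only [Finset.mem_filter, hxy i]

/-- The covers really are covers of the finite-max downward closure. -/
theorem C2.mem_On_of_dom (p : C2) {T : Set Kp} (hT : T.Finite) (hTs : T ⊆ p.s) {g : ℕ → ℕ}
    (hg : Dom (Psi '' T) g) (n : ℕ) : ∃ k, g ∈ On n k := by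
  by_cases h : ∃ x y : Kp, x 0 = 0 ∧ y 0 = 1 ∧ g = Mx x y
  · obtain ⟨x, y, hx, hy, rfl⟩ := h
    have hxT := mem_of_dom (fun m => le_max_left _ _) hT hg
    have hyT := mem_of_dom (fun m => le_max_right _ _) hT hg
    have hne : x ≠ y := by
      rintro rfl
      rw [hx] at hy
      exact zero_ne_one hy
    exact exists_mem_On (p.inf x (hTs hxT) y (hTs hyT) hne) hx hy n
  · refine ⟨0, ?_⟩
    rintro ⟨x, y, h1, h2, h3, _⟩
    exact h ⟨x, y, h1, h2, h3⟩

end GTF
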