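import Pool.Agent.W_10444e_h88.Baire

/-!
# The generic set has the property U_fin(O, Ω) (MP_10444e_gt)
-/

namespace GTF

open IM IM.BSet BVM TKF

theorem c2_sigma : SigmaClosed C2 := C2.sigma

/-- `f` is the code of a point of `p`. -/
def InY (f : ℕ → ℕ) (p : C2) : Prop := f ∈ Psi '' p.s

theorem InY.mono {f : ℕ → ℕ} (p q : C2) (h : InY f p) (hq : q ≤ p) : InY f q :=
  Set.image_mono hq.1 h

/-- The name of the generic set of functions. -/
noncomputable def nY : BSet (RO C2) := nsub fn fun f => tvp (InY f)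

section

variable {lam : RO C2 → Prop} {hl : IsUF lam}

theorem E_Y {f : ℕ → ℕ} : E hl (val hl (fn f)) (val hl nY) ↔ lam (tvp (InY f)) := E_nsub_c disj_fn

theorem Y_sub : Sub (E hl) (val hl nY) (val hl (nall fn)) := nsub_sub_nall

theorem exists_all {T : Finset (ℕ → ℕ)} {q : C2} (h : ∀ f ∈ T, gen q ≤ tvp (InY f)) :
    ∃ r ≤ q, ∀ f ∈ T, InY f r := by
  classical
  induction T using Finset.induction_on with
  | empty => exact ⟨q, le_rfl, fun f hf => absurd hf (Finset.notMem_empty f)⟩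
  | insert f T _ ih =>
    obtain ⟨r, hr, h1⟩ := ih fun g hg => h g (Finset.mem_insert_of_mem hg)
    obtain ⟨r', hr', h2⟩ := (gen_le_tvp_iff InY.mono).1 (h f (Finset.mem_insert_self f T)) r hr
    refine ⟨r', hr'.trans hr, fun g hg => ?_⟩
    rcases Finset.mem_insert.1 hg with rfl | hg
    · exact h2
    · exact InY.mono r r' (h1 g hg) hr'

/-- A standard finite subset of the generic set is contained in a condition. -/
theorem exists_cond (hl : IsUF lam) {T : Finset (ℕ → ℕ)}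
    (h : Sub (E hl) (val hl (nchk fn (T : Set (ℕ → ℕ)))) (val hl nY)) {p : C2}
    (hp : lam (gen p)) :
    ∃ r ≤ p, ∃ T' : Finset Kp, (T' : Set Kp) ⊆ r.s ∧ ∀ f ∈ T, ∃ x ∈ T', Psi x = f := by
  classical
  have h1 : lam (⨅ f ∈ T, tvp (InY f)) := by
    refine hl.iInf_finset T _ fun f hf => ?_
    exact E_Y.1 (h _ ((E_nchk_c disj_fn).2 (Finset.mem_coe.2 hf)))
  obtain ⟨q, hq⟩ := exists_gen (a := gen p ⊓ ⨅ f ∈ T, tvp (InY f)) (by
    intro h0
    apply hl.bot
    rw [← h0]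
    exact hl.inf hp h1)
  obtain ⟨q', hq', t, rfl, hqt⟩ := gen_le_iff.1 (hq.trans inf_le_left) q (le_refl q)
  obtain ⟨r, hr, h2⟩ := exists_all (T := T) (q := q') fun f hf =>
    (gen_mono hq').trans ((hq.trans inf_le_right).trans (iInf₂_le f hf))
  have h3 : ∀ f ∈ T, ∃ x ∈ r.s, Psi x = f := fun f hf => h2 f hf
  choose! x hx hxf using h3
  refine ⟨r, hr.trans hqt, T.image x, ?_, fun f hf => ⟨x f, Finset.mem_image_of_mem _ hf, hxf f hf⟩⟩
  intro y hy
  obtain ⟨f, hf, rfl⟩ := Finset.mem_image.1 (Finset.mem_coe.1 hy)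
  exact hx f hf

theorem E_Y_of {p : C2} (hp : lam (gen p)) {x : Kp} (hx : x ∈ p.s) :
    E hl (val hl (fn (Psi x))) (val hl nY) :=
  E_Y.2 (hl.mono (gen_le_tvp (φ := InY (Psi x)) ⟨x, hx, rfl⟩) hp)

/-- The name of a basic open set. -/
noncomputable def bs (t : List ℕ) : BSet (RO C2) := nchk fn {h | Ext h t}

/-- Some member of the `n`-th cover contains the basic open set `v 2`. -/
def QV (X : Type 1) (E : X → X → Prop) (v : ℕ → X) : Prop :=
  ∃ C O, App E (v 0) (v 1) C ∧ E O C ∧ Sub E (v 2) O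

theorem QV.fo : FO.{0} QV := by
  unfold QV
  repeat' (with_reducible first | apply App.fo | apply Sub.fo | apply FO.mem | apply FO.and | apply FO.ex)

end

/-- **The generic set has the property `U_fin(O, Ω)`.** -/
theorem ufin_Y {lam : RO C2 → Prop} (hl : IsUF lam) :
    UfinOmega (E hl) (val hl (omB _)) (val hl (nall fn)) (val hl nY) := by
  classical
  intro s hs1 hs2
  by_contra hcon
  obtain ⟨s, rfl⟩ := exists_name s
  obtain ⟨p, hp⟩ := Fc.exists (Q := fun _ E v => CoverSeq E (v 0) (v 1) (v 2) (v 3) ∧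
      ¬ ∃ t, OmegaSel E (v 0) (v 2) (v 3) t) (v := ps [omB _, nall fn, nY, s])
    ((CoverSeq.fo 0 1 2 3).and (FO.ex (OmegaSel.fo 1 3 4 0)).not) hl ⟨⟨hs1, hs2⟩, hcon⟩
  clear hcon hs2 hs1 hl lam
  have hCS : ∀ (lam : RO C2 → Prop) (hl : IsUF lam), lam (gen p) →
      CoverSeq (E hl) (val hl (omB _)) (val hl (nall fn)) (val hl nY) (val hl s) :=
    fun lam hl h => (hp lam hl h).1
  -- decide which basic open sets are contained in members of the covers
  obtain ⟨q, hq, hd⟩ := c2_sigma.meet' (ι := ℕ × List ℕ) p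
    (fun i q => Fc q QV (ps [s, natB i.1, bs i.2]) ∨
      Fc q (fun X E v => ¬ QV X E v) (ps [s, natB i.1, bs i.2]))
    (fun i q r hd hr => hd.imp (fun h => h.mono hr) (fun h => h.mono hr))
    (fun i q _ => Fc.dec QV.fo _ q)
  obtain ⟨r, hr, B, hBS, hB⟩ := C2.native_sel q {i | Fc q QV (ps [s, natB i.1, bs i.2])} (by
    intro r hr x hx n
    by_contra hcon
    push Not at hcon
    have h1 : ∀ j, Fc q (fun X E v => ¬ QV X E v) (ps [s, natB n, bs (seg (Psi x) j)]) := by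
      intro j
      rcases hd (n, seg (Psi x) j) with h2 | h2
      · exact absurd (ext_seg (Psi x) j) (hcon _ h2)
      · exact h2
    obtain ⟨lam, hl, hlam⟩ := exists_uf r
    obtain ⟨⟨d, hsd⟩, hcov⟩ := hCS lam hl (hl.mono (gen_mono (hr.trans hq)) hlam)
    obtain ⟨C, hC, _⟩ := hsd.2 (val hl (natB n)) (E_nall_c n)
    obtain ⟨⟨hop, hcv⟩, _⟩ := hcov _ _ hC
    obtain ⟨O, hO, hfO⟩ := hcv _ (E_Y_of hlam hx)
    obtain ⟨k, hk, hkO⟩ := (hop O hO).2 _ hfO
    refine nat_all (Q := fun _ E v => ¬ ∃ C O, App E (v 1) (v 2) C ∧ E O C ∧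
        ∀ g, E g (v 3) → Agree E (v 4) g (v 0) → E g O)
      (v := ps [s, natB n, nall fn, fn (Psi x)])
      (by repeat' (with_reducible first | apply App.fo | apply Agree.fo | apply FO.mem | apply FO.not | apply FO.and | apply FO.imp | apply FO.all | apply FO.ex))
      (gen r) ?_ hl hlam hk ⟨C, O, hC, hO, hkO⟩
    rintro j lam hl hlam ⟨C, O, hC, hO, hkO⟩
    refine h1 j lam hl (hl.mono (gen_mono hr) hlam) ⟨C, O, hC, hO, fun g hg => ?_⟩
    obtain ⟨h2, h3⟩ := mem_basic (f := Psi x) (j := j) hg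
    exact hkO g h2 h3)
  -- names of the selected open sets
  have hO : ∀ n t, ∃ O : BSet (RO C2), t ∈ B n → ∀ (lam : RO C2 → Prop) (hl : IsUF lam),
      lam (gen r) → (∃ C, App (E hl) (val hl s) (val hl (natB n)) C ∧ E hl (val hl O) C) ∧
        Sub (E hl) (val hl (bs t)) (val hl O) := by
    intro n t
    by_cases ht : t ∈ B n
    · obtain ⟨z, hz⟩ := exists_witness
        (Q := fun _ E v => (∃ C, App E (v 1) (v 2) C ∧ E (v 0) C) ∧ Sub E (v 3) (v 0))
        (by repeat' (with_reducible first | apply App.fo | apply Sub.fo | apply FO.mem | apply FO.and | apply FO.ex))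
        (ps [s, natB n, bs t]) (gen r) (by
          intro lam hl hlam
          obtain ⟨C, O, h1, h2, h3⟩ := hBS n t ht lam hl (hl.mono (gen_mono hr) hlam)
          exact ⟨O, ⟨C, h1, h2⟩, h3⟩)
      exact ⟨z, fun _ => hz⟩
    · exact ⟨natB 0, fun h => absurd h ht⟩
  choose O hO using hO
  let F : ℕ → BSet (RO C2) := fun n => nchk (fun t => O n t) (B n : Set (List ℕ))
  have hCS' : ∀ (lam : RO C2 → Prop) (hl : IsUF lam), lam (gen r) →
      CoverSeq (E hl) (val hl (omB _)) (val hl (nall fn)) (val hl nY) (val hl s) :=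
    fun lam hl h => hCS lam hl (hl.mono (gen_mono (hr.trans hq)) h)
  have hsel : ∀ (lam : RO C2 → Prop) (hl : IsUF lam), lam (gen r) →
      ∀ n C F', App (E hl) (val hl s) n C → App (E hl) (val hl (seqB F)) n F' →
        IsFin (E hl) F' ∧ Sub (E hl) F' C := by
    intro lam hl hlam n C F' h1 h2
    obtain ⟨⟨d, hsd⟩, _⟩ := hCS' lam hl hlam
    refine nat_all (Q := fun _ E v => ∀ C F', App E (v 1) (v 0) C → App E (v 2) (v 0) F' →
        IsFin E F' ∧ Sub E F' C) (v := ps [s, seqB F])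
      (by repeat' (with_reducible first | apply App.fo | apply IsFin.fo | apply Sub.fo | apply FO.mem | apply FO.and | apply FO.imp | apply FO.all | apply FO.ex))
      (gen r) ?_ hl hlam (hsd.mem h1).1 C F' h1 h2
    intro n lam hl hlam C F' h1 h2
    obtain ⟨⟨d, hsd⟩, _⟩ := hCS' lam hl hlam
    have h3 : F' = val hl (F n) := app_seqB_uniq h2
    rw [h3]
    refine ⟨isFin_nchk (B n), fun z hz => ?_⟩
    obtain ⟨t, ht, rfl⟩ := E_nchk_finset.1 hz
    obtain ⟨⟨C', hC', hOC⟩, _⟩ := hO n t ht lam hl hlam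
    rw [hsd.uniq h1 hC']
    exact hOC
  obtain ⟨lam, hl, hlam⟩ := exists_uf r
  refine (hp lam hl (hl.mono (gen_mono (hr.trans hq)) hlam)).2
    ⟨val hl (seqB F), ⟨isSeq_seqB F, hsel lam hl hlam⟩, ?_, ?_⟩
  · intro n F' hF'
    obtain ⟨⟨d, hsd⟩, hcov⟩ := hCS' lam hl hlam
    obtain ⟨C, hC, _⟩ := hsd.2 n ((isMap_seqB F).mem hF').1
    obtain ⟨h1, h2⟩ := hsel lam hl hlam n C F' hC hF'
    exact (hcov n C hC).2 F' h1 h2
  · intro A hA hAY
    have hA1 : E hl A (val hl (nfin fn)) := mem_nfin_iff.2 ⟨hA, fun z hz => Y_sub z (hAY z hz)⟩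
    refine fam_all (c := fun T : Finset (ℕ → ℕ) => nchk fn (T : Set (ℕ → ℕ)))
      (Q := fun _ E v => Sub E (v 0) (v 1) → ∃ n F', App E (v 2) n F' ∧ Cov E (v 0) F')
      (v := ps [nY, seqB F])
      (by repeat' (with_reducible first | apply App.fo | apply Cov.fo | apply Sub.fo | apply FO.mem | apply FO.and | apply FO.imp | apply FO.all | apply FO.ex))
      (gen r) ?_ hl hlam hA1 hAY
    intro T lam hl hlam hTY
    obtain ⟨r', hr', T', hT', hTT⟩ := exists_cond hl (T := T) hTY hlam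
    obtain ⟨n, hn⟩ := hB r' hr' T' hT'
    refine ⟨val hl (natB n), val hl (F n), app_seqB F n, fun z hz => ?_⟩
    obtain ⟨f, hf, rfl⟩ := E_nchk_finset.1 hz
    obtain ⟨x, hx, rfl⟩ := hTT f hf
    obtain ⟨t, ht, hxt⟩ := hn x hx
    refine ⟨val hl (O n t), E_nchk_finset.2 ⟨t, ht, rfl⟩, ?_⟩
    exact (hO n t ht lam hl hlam).2 _ ((E_nchk_c disj_fn).2 hxt)

end GTF
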